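import Pool.Agent.H2.AlgM2

set_option autoImplicit false

namespace Pool.Agent.Results.MP_188fab_co.NotRepresentable

open Pool.Agent.H2.AlgM

theorem result : ∃ (m N : ℕ) (g : Fin N → MvPolynomial (Fin m) (ZMod 2)),
    (∀ i, (g i).IsHomogeneous 2) ∧
    ¬ ∃ (K : Type) (_ : Field K) (V : Type) (_ : AddCommGroup V) (_ : Module K V) (v : Fin N → V),
      ∀ S : Set (Fin N), LinearIndependent K (fun i : S => v i) ↔
        AlgebraicIndependent (ZMod 2) (fun i : S => g i) := by
  refine ⟨8, 16, g, g_hom, ?_⟩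
  rintro ⟨K, _, V, _, _, v, H⟩
  have key : ∀ i j k : Fin 16, Function.Injective ![i, j, k, 14, 15] →
      (LinearIndependent K ![v i, v j, v k, v 14, v 15] ↔
        AlgebraicIndependent (ZMod 2) ![g i, g j, g k, g 14, g 15]) := by
    intro i j k he
    refine Iff.trans ?_ ((H (Set.range ![i, j, k, 14, 15])).trans ?_)
    · exact linearIndependent_equiv' (Equiv.ofInjective _ he) (by ext1 l; fin_cases l <;> rfl)
    · exact (algebraicIndependent_equiv' (Equiv.ofInjective _ he)
        (by ext1 l; fin_cases l <;> rfl)).symm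
  have huw : ∀ a b : K, a • v 14 + b • v 15 = 0 → a = 0 ∧ b = 0 := by
    intro a b h
    have := Fintype.linearIndependent_iff.mp ((key 0 1 2 (by decide)).mpr ind_0_1_2)
      ![0, 0, 0, a, b] (by simpa [Fin.sum_univ_five] using h)
    exact ⟨this 3, this 4⟩
  have I := fun i j k he h => (five huw (v i) (v j) (v k)).mp ((key i j k he).mpr h)
  have D := fun i j k he h =>
    not_not.mp (mt (five huw (v i) (v j) (v k)).mpr (mt (key i j k he).mp h))
  have h2 := (fano (I 0 1 2 (by decide) ind_0_1_2) (I 1 2 6 (by decide) ind_1_2_6)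
    (I 0 2 6 (by decide) ind_0_2_6) (I 0 2 5 (by decide) ind_0_2_5)
    (D 0 1 3 (by decide) dep_0_1_3) (D 0 2 4 (by decide) dep_0_2_4) (D 1 2 5 (by decide) dep_1_2_5)
    (D 0 5 6 (by decide) dep_0_5_6) (D 1 4 6 (by decide) dep_1_4_6)
    (D 2 3 6 (by decide) dep_2_3_6)).2 (I 1 2 3 (by decide) ind_1_2_3)
    (I 0 1 4 (by decide) ind_0_1_4) (D 3 4 5 (by decide) dep_3_4_5)
  exact I 10 11 12 (by decide) ind_10_11_12 ((fano (I 7 8 9 (by decide) ind_7_8_9)
    (I 8 9 13 (by decide) ind_8_9_13) (I 7 9 13 (by decide) ind_7_9_13)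
    (I 7 9 12 (by decide) ind_7_9_12) (D 7 8 10 (by decide) dep_7_8_10)
    (D 7 9 11 (by decide) dep_7_9_11) (D 8 9 12 (by decide) dep_8_9_12)
    (D 7 12 13 (by decide) dep_7_12_13) (D 8 11 13 (by decide) dep_8_11_13)
    (D 9 10 13 (by decide) dep_9_10_13)).1 h2)

end Pool.Agent.Results.MP_188fab_co.NotRepresentable
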